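import Pool.Agent.Q18.KZ.S4
import Pool.Agent.Q241.KS.Fin

/-!
# Project KZ of helper18: lemma job BAD0 (few poor cells from `MAINP (1/2) 0.306`)

Adapted from the file `Pool.Agent.Q241.KS.Fin` of helper241.
-/

set_option autoImplicit false

namespace Pool.Agent.Q285.KZ

open Finset Pool.Agent.Q240.KS Pool.Agent.Q18.KZ
open Pool.Agent.W76.MO (hh nc cell)
open Pool.Agent.Q241.KS (log_bds two_rpow YleI)

theorem t_BAD0 : S_BAD0 := by
  classical
  rintro ⟨c, η₀, Y₀, hc, hη₀, hM⟩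
  set η : ℝ := min η₀ (1 / 10) with hη
  have hη0 : 0 < η := lt_min hη₀ (by norm_num)
  have hη1 : η ≤ η₀ := min_le_left _ _
  have hη2 : η ≤ 1 / 10 := min_le_right _ _
  refine ⟨c, η / 2, hc, by positivity, ?_⟩
  intro δ hδ0 hδ
  refine ⟨⌈max (|Y₀| * 2) (4 / η)⌉₊ + 2, ?_⟩
  intro i hi
  have hi2 : 2 ≤ i := by omega
  have hi' : max (|Y₀| * 2) (4 / η) ≤ i := by
    have h1 : (⌈max (|Y₀| * 2) (4 / η)⌉₊ : ℝ) ≤ i := by
      exact_mod_cast (by omega : ⌈max (|Y₀| * 2) (4 / η)⌉₊ ≤ i)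
    exact (Nat.le_ceil _).trans h1
  have hiY : |Y₀| * 2 ≤ i := (le_max_left _ _).trans hi'
  have hiη : 4 / η ≤ i := (le_max_right _ _).trans hi'
  rw [div_le_iff₀ hη0] at hiη
  have hir : (2 : ℝ) ≤ i := by exact_mod_cast hi2
  obtain ⟨hY0, hYi⟩ := YleI hi2
  have hl1 := Real.log_two_lt_d9
  have hl2 := Real.log_two_gt_d9
  set Y : ℝ := ((i : ℝ) + 1 / 2) * Real.log 2 with hY
  have hYY : Y₀ ≤ Y := by
    have := le_abs_self Y₀
    rw [hY]
    nlinarith
  set h : ℕ := hh δ i with hh'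
  have hhpos : 0 < h := by
    rw [hh', hh]
    positivity
  have hhp : (0 : ℝ) < h := by exact_mod_cast hhpos
  have hhv : (h : ℝ) = Real.exp ((⌊(1 / 2 - δ) * i⌋₊ : ℝ) * Real.log 2) := by
    rw [hh', hh, ← two_rpow]
    push_cast
    rw [Real.rpow_natCast]
  have hδ2 : δ ≤ 1 / 20 := by linarith
  have hfl1 : (⌊(1 / 2 - δ) * i⌋₊ : ℝ) ≤ (1 / 2 - δ) * i := Nat.floor_le (by
    have : 0 ≤ 1 / 2 - δ := by linarith
    positivity)
  have hfl2 : (1 / 2 - δ) * i - 1 < (⌊(1 / 2 - δ) * i⌋₊ : ℝ) := Nat.sub_one_lt_floor _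
  have hlow : Real.exp ((1 - 1 / 2 - η₀) * Y) ≤ h := by
    rw [hhv, Real.exp_le_exp]
    have h1 : (1 - 1 / 2 - η₀) * Y ≤ (1 / 2 - η) * Y := by
      refine mul_le_mul_of_nonneg_right ?_ hY0.le
      linarith
    refine h1.trans ?_
    rw [hY, ← mul_assoc]
    refine mul_le_mul_of_nonneg_right ?_ (by linarith)
    nlinarith
  have hup : (h : ℝ) ≤ Real.exp (0.9 * Y) := by
    rw [hhv, Real.exp_le_exp, hY, ← mul_assoc]
    refine mul_le_mul_of_nonneg_right ?_ (by linarith)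
    nlinarith
  obtain ⟨bad, hbad⟩ : ∃ bad : Finset ℕ,
      bad = (range (nc δ i)).filter (fun k => np δ i k < c * h / i) := ⟨_, rfl⟩
  have hgoal : ((range (nc δ i)).filter (fun k => np δ i k < c * h / i)).card = bad.card := by
    rw [hbad]
  set pt : ℕ → ℝ := fun k => ((2 ^ i + k * h : ℕ) : ℝ) with hpt
  have hinj : Function.Injective pt := by
    intro a b hab
    have h1 : (2 ^ i + a * h : ℕ) = 2 ^ i + b * h := Nat.cast_injective (R := ℝ) hab
    have h2 : a * h = b * h := by omega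
    exact Nat.eq_of_mul_eq_mul_right hhpos h2
  have hcard := hM Y hYY h hlow hup (bad.image pt) (by
    intro y hy
    obtain ⟨k, hk, rfl⟩ := mem_image.1 hy
    rw [hbad, mem_filter, mem_range] at hk
    obtain ⟨hk1, hk2⟩ := hk
    have h1 : (2 : ℝ) ^ i ≤ pt k := by
      rw [hpt]
      push_cast
      have : (0 : ℝ) ≤ k * h := by positivity
      linarith
    have h2 : pt k ≤ (2 : ℝ) ^ (i + 1) := by
      have h3 : k * h ≤ 2 ^ i := by
        have h4 : nc δ i * h ≤ 2 ^ i := by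
          rw [nc, ← hh']
          exact Nat.div_mul_le_self _ _
        exact (Nat.mul_le_mul_right h hk1.le).trans h4
      have h5 : 2 ^ i + k * h ≤ 2 ^ (i + 1) := by
        rw [pow_succ]
        omega
      rw [hpt]
      have h6 : ((2 ^ i + k * h : ℕ) : ℝ) ≤ ((2 ^ (i + 1) : ℕ) : ℝ) := by exact_mod_cast h5
      refine h6.trans ?_
      push_cast
      exact le_refl _
    obtain ⟨hy0, hyl⟩ := log_bds h1 h2
    refine ⟨hy0, hyl, ?_⟩
    have h3 : (pic (pt k) h : ℝ) = np δ i k := by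
      have e1 : ⌊pt k⌋₊ = 2 ^ i + k * h := by
        rw [hpt]
        exact Nat.floor_natCast _
      have e2 : ⌊pt k + h⌋₊ = 2 ^ i + (k + 1) * h := by
        have : pt k + h = ((2 ^ i + (k + 1) * h : ℕ) : ℝ) := by
          rw [hpt]
          push_cast
          ring
        rw [this]
        exact Nat.floor_natCast _
      rw [pic, e1, e2, np, cell, ← hh']
    rw [h3]
    refine hk2.trans_le ?_
    exact div_le_div_of_nonneg_left (by positivity) hY0 hYi) (by
    intro y hy y' hy' hne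
    obtain ⟨k, -, rfl⟩ := mem_image.1 hy
    obtain ⟨k', -, rfl⟩ := mem_image.1 hy'
    have hkk : k ≠ k' := fun h => hne (by rw [h])
    have h1 : pt k - pt k' = ((k : ℝ) - k') * h := by
      rw [hpt]
      push_cast
      ring
    rw [h1, abs_mul, abs_of_pos hhp]
    have h2 : (1 : ℝ) ≤ |(k : ℝ) - k'| := by
      have h3 : ((k : ℤ) - k') ≠ 0 := by
        intro h4
        apply hkk
        omega
      have h4 := Int.one_le_abs h3
      have h5 : ((|((k : ℤ) - k')| : ℤ) : ℝ) = |(k : ℝ) - k'| := by push_cast; rfl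
      rw [← h5]
      exact_mod_cast h4
    nlinarith)
  rw [card_image_of_injective _ hinj] at hcard
  have hfin : (bad.card : ℝ) ≤ (2 : ℝ) ^ (0.306 * (i : ℝ)) := by
    refine hcard.trans ?_
    rw [two_rpow, Real.exp_le_exp]
    have h1 : (0.306 - η₀) * Y ≤ (0.306 - η) * Y := by
      refine mul_le_mul_of_nonneg_right ?_ hY0.le
      linarith
    refine h1.trans ?_
    rw [hY, ← mul_assoc]
    refine mul_le_mul_of_nonneg_right ?_ (by linarith)
    nlinarith
  rw [← hgoal] at hfin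
  convert hfin using 2

end Pool.Agent.Q285.KZ
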